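import Pool.Agent.MP_0e6a9f_ag.H24.S3d

/-! A resolution of the diagonal of a gluing along a semifree bimodule. -/

open MulOpposite

noncomputable section
namespace FMD.S3
open _root_.FMD.DGR _root_.FMD.Bimod _root_.FMD.glue

variable {K : Type} [Field K]

section
variable {C : DGR} [Algebra K C.B] [C.KL K] {X Y : Tw (env K C C)}

/-- Killing the kernel of a surjective augmentation by new generators. -/
lemma ext_res {a : X.I → C.B} (ha : a ∈ bhGr X C.self 0) (had : bhD X C.self a = 0)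
    (hs : ∀ n, ∀ w ∈ C.gr n, ∃ v ∈ (Fr X).gr n, lift X C.self a v = w)
    {D : Y.I → (ker (lift_isHom ha had)).H} (hD : D ∈ bhGr Y (ker (lift_isHom ha had)) 0)
    (h0 : bhD Y (ker (lift_isHom ha had)) D = 0)
    (hq : Cx.Qis (Fr Y).cx (ker (lift_isHom ha had)).cx (lift Y _ D)) :
    ∃ f hf hd, ∃ P : Res K C, P.q = X.ext (Y.shift (-1)) f hf hd := by
  have hk := kv_isHom (hf := lift_isHom ha had)
  have hf : Fr.mat (y := Y.shift (-1)) (fun i => kv _ (D i)) ∈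
      (env K C C).self.twGr X (Y.shift (-1)) 1 :=
    (Tw.mem_shift_r _ (add_neg_cancel 1)).2 (Fr.mat_mem ((hk.bh Y).mem hD))
  have hd : (env K C C).self.twD X (Y.shift (-1))
      (Fr.mat (y := Y.shift (-1)) fun i => kv _ (D i)) = 0 :=
    (Fr.twD_mat _).trans (congrArg (Fr.mat (y := Y)) ((hk.bh Y).cyc hD h0))
  have hr : Fr.rows (Fr.mat (y := Y.shift (-1)) fun i => kv _ (D i)) =
      fun i => kv _ (D i) := Fr.mat_injective (Fr.mat_rows hf)
  have am : Sum.elim a 0 ∈ bhGr (Tw.ext _ _ _ hf hd) C.self 0 := by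
    rintro (i | i)
    exacts [ha i, zero_mem _]
  have ad : bhD (Tw.ext _ _ _ hf hd) C.self (Sum.elim a 0) = 0 := by
    funext i
    rcases i with i | i
    · exact (Fr.bhD_ext_inl (hf := hf) (hd := hd) _ _ i).trans (congrFun had i)
    · refine (Fr.bhD_ext_inr (hf := hf) (hd := hd) _ _ i).trans ?_
      exact (congrArg₂ (· + ·) (congrFun (map_zero (bhD (Y.shift (-1)) C.self)) i)
        (f_kv (D i))).trans (add_zero _)
  have e0 : ∀ v, lift (Tw.ext _ _ _ hf hd) C.self (Sum.elim a 0) v =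
      lift X C.self a (Fr.fst hf hd v) := fun v =>
    (lift_ext _ v).trans ((congrArg _ (lift_zero _)).trans (add_zero _))
  let j : (Fr Y).H × (ker (lift_isHom ha had)).H →+ (Fr (Tw.ext _ _ _ hf hd)).H :=
    ((Fr.inr hf hd).comp (Fr.sh Y (-1)).toAddMonoidHom).coprod ((Fr.inl hf hd).comp (kv _))
  have e1 : ∀ v, Fr.fst hf hd (j v) = kv _ v.2 := fun v => by simp [j]
  have e2 : ∀ v, Fr.snd hf hd (j v) = Fr.sh Y (-1) v.1 := fun v => by simp [j]
  have hm : ∀ n v, j v ∈ (Fr (Tw.ext _ _ _ hf hd)).gr n ↔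
      v.1 ∈ (Fr Y).gr (n + 1) ∧ v.2 ∈ (ker (lift_isHom ha had)).gr n := fun n v => by
    rw [Fr.ext_mem, e1, e2, ← Fr.sh_mem (x := Y) (k := -1), add_neg_cancel_right, and_comm]; rfl
  have hj : ∀ v, (Fr _).d (j v) = j ((Fr Y).d v.1, lift Y _ D v.1 + (ker _).d v.2) := fun v =>
    Fr.ext_ext (by
      rw [Fr.fst_d, e1, e1, e2, hr, add_comm, map_add, hk.isLin.lift D v.1]; rfl)
      (by rw [Fr.snd_d, e2, e2]; rfl)
  refine ⟨_, hf, hd, ⟨_, _, am, ad, Cx.SES.qis_p (C := Cx.cone hq.toIsMap)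
    (C' := (Fr (Tw.ext _ _ _ hf hd)).cx) (C'' := C.self.cx) (i := j)
    ⟨⟨fun hv => (hm _ _).2 hv, fun _ => hj _⟩,
      (lift_isHom am ad).isMap, fun n v _ h => ?_, fun n v _ => ?_, fun n v hv h => ?_,
      fun n w hw => ?_⟩ ((Cx.qis_iff_cone _).1 hq)⟩, rfl⟩
  · exact Prod.ext ((e2 v).symm.trans ((congrArg _ h).trans (map_zero _)))
      (kv_inj ((e1 v).symm.trans ((congrArg _ h).trans (map_zero _))))
  · exact (e0 _).trans ((congrArg _ (e1 v)).trans (f_kv v.2))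
  · have e : j ((Fr.sh Y (-1)).symm (Fr.snd hf hd v), kmk _ (Fr.fst hf hd v)
        ((e0 v).symm.trans h)) = v := Fr.ext_ext (e1 _) (e2 _)
    exact ⟨_, (hm n _).1 (e.symm ▸ hv), e⟩
  · obtain ⟨v, hv, e⟩ := hs n w hw
    exact ⟨Fr.inl hf hd v, Fr.inl_isHom.mem hv, (e0 _).trans e⟩

/-- A closed family in a bimodule that resolves the target of a bijection. -/
lemma exists_lift {Z M : Bimod C C} [Module K Z.H] [IsScalarTower K C.B Z.H]
    [IsScalarTower K C.Bᵐᵒᵖ Z.H] [Module K M.H] [IsScalarTower K C.B M.H]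
    [IsScalarTower K C.Bᵐᵒᵖ M.H] {π : Z.H →+ M.H} (hπ : IsHom Z M π) (hq : Cx.Qis Z.cx M.cx π)
    {c : Y.I → M.H} (hc : c ∈ bhGr Y M 0) (hd : bhD Y M c = 0)
    (h : Cx.Qis (Fr Y).cx M.cx (lift Y M c)) :
    ∃ D ∈ bhGr Y Z 0, bhD Y Z D = 0 ∧ Cx.Qis (Fr Y).cx Z.cx (lift Y Z D) := by
  obtain ⟨D, hD, h0, k, hk, e⟩ := (hπ.bh_qis hq Y).surj 0 c hc hd
  refine ⟨D, hD, h0, hq.of_comp_left (lift_isHom hD h0).isMap (h.homotopic
    (hπ.comp (lift_isHom hD h0)).isMap (lift Y M k)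
    (fun m v hv => M.mem_cast (lift_mem hk hv) (by ring)) fun m v _ hv => ?_)⟩
  change π (lift Y Z D v) = lift Y M c v + M.d (lift Y M k v)
  rw [d_lift, show (Fr Y).d v = 0 from hv, map_zero, zero_add, show bhD Y M k = _ from e, lift_add,
    add_left_comm, M.two, add_zero]
  exact hπ.isLin.lift D v

lemma can_qis {M : Bimod C C} [Module K M.H] [IsScalarTower K C.B M.H]
    [IsScalarTower K C.Bᵐᵒᵖ M.H] {c : Y.I → M.H} (hc : c ∈ bhGr Y M 0) (hd : bhD Y M c = 0)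
    {g : M.H →+ (Fr Y).H} (hg : IsHom M (Fr Y) g) (h1 : ∀ w, lift Y M c (g w) = w)
    (h2 : ∀ i, g (c i) = Fr.gen Y i) : Cx.Qis (Fr Y).cx M.cx (lift Y M c) :=
  Cx.Qis.of_bij (lift_isHom hc hd).isMap (fun _ v _ h => ((hg.isLin.comp (lift_isLin c)).fr_ext
    (IsLin.id _) (fun i => (congrArg g (lift_gen hc i)).trans (h2 i)) v).symm.trans
      ((congrArg g h).trans (map_zero g))) fun _ w hw => ⟨g w, hg.mem hw, h1 w⟩

end

variable {A : DGR} [Algebra K A.B] [A.KL K] (n : Tw (env K A A))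

/-- The generators in the corner. -/
abbrev YY : Tw (env K (glue (Fr n)) (glue (Fr n))) := (envF (I₂ K (Fr n)) (I₁ K (Fr n))).tw n

lemma c_mem : (fun i => toC (Fr n) (Fr.gen n i)) ∈ bhGr (YY n) (corner (Fr n) (Fr n)) 0 :=
  along_toC.bhGr gen_bhGr

lemma c_d : bhD (YY n) (corner (Fr n) (Fr n)) (fun i => toC (Fr n) (Fr.gen n i)) = 0 :=
  (along_toC.bhD n (Fr.gen n)).trans (by rw [bhD_gen]; rfl)

lemma c_qis : Cx.Qis (Fr (YY n)).cx (corner (Fr n) (Fr n)).cx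
    (lift (YY n) (corner (Fr n) (Fr n)) fun i => toC (Fr n) (Fr.gen n i)) :=
  can_qis (c_mem n) (c_d n) (iota_along (y := n)).corner
    (fun w => by rw [AddMonoidHom.comp_apply, along_toC.lift, lift_gen_id, toC_ofC])
    fun i => by rw [AddMonoidHom.comp_apply, ofC_toC, iota_gen]

section
variable {N : Bimod A A} (hA : Deg0 A)

include hA in
lemma cor_inl {a b : A.O} {k : ℤ} {x : (glue N).B}
    (hx : x ∈ (glue N).self.cor (Sum.inl a) (Sum.inl b) k) (hk : k ≠ 0) : x = 0 := by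
  obtain ⟨h0, h1, -⟩ := (glue N).mem_self_cor.1 hx
  exact glue.ext (hA.zero h0.1 hk) (by rw [← h1]; simp [e_inl])
    (by rw [← h1]; simp [e_inl])

include hA in
lemma cor_inr {a b : A.O} {k : ℤ} {x : (glue N).B}
    (hx : x ∈ (glue N).self.cor (Sum.inr a) (Sum.inr b) k) (hk : k ≠ 0) : x = 0 := by
  obtain ⟨h0, -, h1⟩ := (glue N).mem_self_cor.1 hx
  exact glue.ext (by rw [← h1]; simp [e_inr]) (hA.zero h0.2.1 hk)
    (by rw [← h1]; simp [e_inr])

lemma cor_mid {a b : A.O} {k : ℤ} {x : (glue N).B}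
    (hx : x ∈ (glue N).self.cor (Sum.inl a) (Sum.inr b) k) :
    pN N x ∈ N.cor a b k ∧ iN N (pN N x) = x := by
  obtain ⟨h0, h1, h2⟩ := (glue N).mem_self_cor.1 hx
  refine ⟨N.mem_cor h0.2.2 ?_ ?_, glue.ext (by rw [← h1]; simp [e_inr])
    (by rw [← h2]; simp [e_inl]) rfl⟩
  · simpa [e_inr] using congrArg (pN N) h1
  · simpa [e_inl] using congrArg (pN N) h2

end

end FMD.S3

namespace FMD
open _root_.FMD.DGR _root_.FMD.Bimod _root_.FMD.glue S3

theorem s3 : S3Stmt := by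
  intro K _ _ A _ _ hA R n
  obtain ⟨u, hu, hd, h1⟩ := exists_u hA R
  obtain ⟨D, hD, h0, hq⟩ := exists_lift piZ_isHom (piZ_qis (N := Fr n) hA hu hd h1) (c_mem n)
    (c_d n) (c_qis n)
  obtain ⟨f, hf, hf', P, e⟩ := ext_res aX_mem aX_d (augX_surj hu h1) hD h0 hq
  refine ⟨P, fun m hm hn => ?_⟩
  rw [e]
  intro c hc h
  have c0 : ∀ j, c (Sum.inl j) = 0 := by
    rintro (j | j)
    exacts [cor_inl hA (hc (Sum.inl (Sum.inl j))) (hm j),
      cor_inr hA (hc (Sum.inl (Sum.inr j))) (hm j)]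
  have c1 := fun i => cor_mid (hc (Sum.inr i))
  have key : ∀ (w : (XX (Fr n) R).I ⊕ n.I → (glue (Fr n)).B) (ν : n.I → (Fr n).H),
      (∀ j, w (Sum.inl j) = 0) → (∀ i, w (Sum.inr i) = iN _ (ν i)) → ∀ i,
      bhD (Tw.ext _ _ f hf hf') (glue (Fr n)).self w (Sum.inr i) = iN _ (bhD n (Fr n) ν i) := by
    intro w ν w0 w1 i
    rw [Fr.bhD_ext_inr]
    simp only [w0, w1, map_zero, Finset.sum_const_zero, add_zero]
    exact congrFun (alongN.bhD n ν) i
  obtain ⟨μ, hμ, e'⟩ := hn (fun i => pN _ (c (Sum.inr i)))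
    (fun i => cor_cast (c1 i).1 (by dsimp only [Sum.elim_inr]; ring))
    (funext fun i => iN_inj ((key c _ c0 (fun i => (c1 i).2.symm) i).symm.trans
      ((congrFun h (Sum.inr i)).trans (map_zero _).symm)))
  refine ⟨Sum.elim 0 fun i => iN _ (μ i), ?_, funext ?_⟩
  · rintro (j | i)
    exacts [zero_mem _, cor_cast (iN_mem_cor (hμ i)) (by dsimp only [Sum.elim_inr]; ring)]
  · rintro (j | i)
    · exact (Fr.bhD_ext_inl (hf := hf) (hd := hf') _ _ j).trans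
        ((congrFun (map_zero (bhD (XX (Fr n) R) (glue (Fr n)).self)) j).trans (c0 j).symm)
    · exact (key _ μ (fun _ => rfl) (fun _ => rfl) i).trans
        ((congrArg (iN _) (congrFun e' i)).trans (c1 i).2)

end FMD
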