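import Pool.Agent.MP_0e6a9f_ag.H19.Spec

/-! Kernels of bimodule maps; extension of semifree bimodules along DG functors. -/

open MulOpposite

noncomputable section
namespace FMD.S3
open _root_.FMD.DGR _root_.FMD.Bimod

section Ker
variable {C C' : DGR} {M M' : Bimod C C'} {f : M.H →+ M'.H}

/-- The kernel of a closed bimodule map. -/
def ker (hf : IsHom M M' f) : Bimod C C' :=
  letI : SMul C'.B f.ker := ⟨fun b m => ⟨b • m.1, by
    rw [AddMonoidHom.mem_ker, hf.l, show f m.1 = 0 from m.2, smul_zero]⟩⟩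
  letI : SMul C.Bᵐᵒᵖ f.ker := ⟨fun b m => ⟨b • m.1, by
    rw [AddMonoidHom.mem_ker, ← op_unop b, hf.r, show f m.1 = 0 from m.2, smul_zero]⟩⟩
  { H := f.ker
    modL := Function.Injective.module C'.B f.ker.subtype Subtype.val_injective fun _ _ => rfl
    modR := Function.Injective.module C.Bᵐᵒᵖ f.ker.subtype Subtype.val_injective fun _ _ => rfl
    comm := ⟨fun a b m => Subtype.ext (smul_comm a b m.1)⟩
    gr := fun n => (M.gr n).comap f.ker.subtype
    d := (M.d.comp f.ker.subtype).codRestrict f.ker fun m => by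
      change f (M.d m.1) = 0
      rw [← hf.comm, show f m.1 = 0 from m.2, map_zero]
    d_mem := fun h => M.d_mem h
    d_d := fun m => Subtype.ext (M.d_d m.1)
    l_mem := fun hb h => M.l_mem hb h
    r_mem := fun hb h => M.r_mem hb h
    d_l := fun b m => Subtype.ext (M.d_l b m.1)
    d_r := fun b m => Subtype.ext (M.d_r b m.1) }

variable (hf : IsHom M M' f)

/-- The inclusion of the kernel. -/
def kv : (ker hf).H →+ M.H := f.ker.subtype

/-- An element of the kernel. -/
def kmk (m : M.H) (h : f m = 0) : (ker hf).H := ⟨m, h⟩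

@[simp] lemma kv_kmk (m : M.H) (h : f m = 0) : kv hf (kmk hf m h) = m := rfl

variable {hf}

lemma kv_inj {u v : (ker hf).H} (h : kv hf u = kv hf v) : u = v := Subtype.ext h

lemma f_kv (u : (ker hf).H) : f (kv hf u) = 0 := u.2

lemma mem_ker_gr {n : ℤ} {u : (ker hf).H} : u ∈ (ker hf).gr n ↔ kv hf u ∈ M.gr n := Iff.rfl

lemma kv_isHom : IsHom (ker hf) M (kv hf) :=
  ⟨fun h => h, fun _ => rfl, fun _ _ => rfl, fun _ _ => rfl⟩

lemma kv_d (u : (ker hf).H) : kv hf ((ker hf).d u) = M.d (kv hf u) := rfl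
lemma kv_l (b : C'.B) (u : (ker hf).H) : kv hf (b • u) = b • kv hf u := rfl
lemma kv_r (b : C.Bᵐᵒᵖ) (u : (ker hf).H) : kv hf (b • u) = b • kv hf u := rfl

lemma ker_ses (hs : ∀ n, ∀ w ∈ M'.gr n, ∃ v ∈ M.gr n, f v = w) :
    Cx.SES (ker hf).cx M.cx M'.cx (kv hf) f :=
  ⟨kv_isHom.isMap, hf.isMap, fun _ _ _ h => kv_inj h, fun _ v _ => f_kv v,
    fun _ v hv h => ⟨kmk hf v h, hv, rfl⟩, hs⟩

lemma ker_acyc (hs : ∀ n, ∀ w ∈ M'.gr n, ∃ v ∈ M.gr n, f v = w) (h : Cx.Qis M.cx M'.cx f) :
    (ker hf).cx.Acyc := fun n z hz h0 => by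
  obtain ⟨v, hv, e⟩ := h.inj n (kv hf z) hz (congrArg (kv hf) h0) (f_kv z ▸ Cx.Bd.zero n)
  change M.d v = kv hf z at e
  obtain ⟨y, hy, hy', w, hw, e'⟩ := h.surj (n - 1) (f v) (hf.mem hv)
    ((hf.comm v).trans (by rw [e, f_kv]))
  obtain ⟨t, ht, rfl⟩ := hs _ w hw
  change M'.d (f t) = _ at e'
  change M.d y = 0 at hy'
  refine ⟨kmk hf (y + v + M.d t) (by rw [map_add, map_add, ← hf.comm, e', M'.two]),
    add_mem (add_mem hy hv) (M.cx.d_mem' ht), kv_inj (hf := hf) ?_⟩
  change M.d (y + v + M.d t) = _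
  rw [map_add, map_add, hy', e, M.d_d, zero_add, add_zero]

variable {K : Type} [Field K] [Algebra K C'.B] [Module K M.H] [IsScalarTower K C'.B M.H]

instance : Module K (ker hf).H :=
  letI : SMul K (ker hf).H := ⟨fun c m => kmk hf (c • kv hf m) (by
    rw [← algebraMap_smul C'.B, hf.l, f_kv, smul_zero])⟩
  Function.Injective.module K (kv hf) (fun _ _ => kv_inj) fun _ _ => rfl

lemma kv_smul (c : K) (u : (ker hf).H) : kv hf (c • u) = c • kv hf u := rfl

instance : IsScalarTower K C'.B (ker hf).H := ⟨fun c b m => kv_inj (smul_assoc c b (kv hf m))⟩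

instance [Algebra K C.B] [IsScalarTower K C.Bᵐᵒᵖ M.H] : IsScalarTower K C.Bᵐᵒᵖ (ker hf).H :=
  ⟨fun c b m => kv_inj (smul_assoc c b (kv hf m))⟩

end Ker

variable {K : Type} [Field K] {C C' D D' : DGR} [Algebra K C.B] [Algebra K C'.B] [C.KL K]
  [C'.KL K] [Algebra K D.B] [Algebra K D'.B] [D.KL K] [D'.KL K]

/-- A linear DG functor. -/
structure LFun (K : Type) [Field K] (D C : DGR) [Algebra K D.B] [Algebra K C.B] extends
    DFun D C where
  smul : ∀ (c : K) a, f (c • a) = c • f a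

variable (φ : LFun K D' C') (ψ : LFun K D C)

/-- The map of enveloping rings. -/
def envL : (env K D D').B →ₗ[K] (env K C C').B :=
  elift (LinearMap.mk₂ K (fun a b => em K C C' (φ.f a) (ψ.f b))
    (fun a a' b => by rw [map_add, add_em]) (fun c a b => by rw [φ.smul, smul_em])
    (fun a b b' => by rw [map_add, em_add]) fun c a b => by rw [ψ.smul, em_smul])

lemma envL_em (a : D'.B) (b : D.B) : envL φ ψ (em K D D' a b) = em K C C' (φ.f a) (ψ.f b) := rfl

/-- The functor of enveloping categories. -/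
def envF : DFun (env K D D') (env K C C') where
  f :=
    { toFun := envL φ ψ
      map_zero' := map_zero _
      map_add' := map_add _
      map_mul' x y := by
        induction x using env_ind with
        | zero => simp
        | add a b ha hb => simp only [add_mul, map_add, ha, hb]
        | em a b =>
          induction y using env_ind with
          | zero => simp
          | add a b ha hb => simp only [mul_add, map_add, ha, hb]
          | em a' b' => simp only [em_mul, envL_em, map_mul] }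
  ob o := (φ.ob o.1, ψ.ob o.2)
  map_e o := by
    change envL φ ψ ((env K D D').e o) = _
    rw [env_e', envL_em, φ.map_e, ψ.map_e, env_e]
  mem hz := env_gr_le (envL φ ψ).toAddMonoidHom _
    (fun i j a b ha hb e => em_mem (φ.mem ha) (ψ.mem hb) e) hz
  comm z := by
    change (env K C C').d (envL φ ψ z) = envL φ ψ ((env K D D').d z)
    induction z using env_ind with
    | zero => simp
    | add a b ha hb => simp only [map_add, ha, hb]
    | em a b => simp only [d_em, envL_em, map_add, φ.comm, ψ.comm]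

lemma envF_em (a : D'.B) (b : D.B) :
    (envF φ ψ).f (em K D D' a b) = em K C C' (φ.f a) (ψ.f b) := rfl

lemma envF_ob (o : (env K D D').O) : (envF φ ψ).ob o = (φ.ob o.1, ψ.ob o.2) := rfl

/-- A closed map of degree 0 that intertwines the actions along two functors. -/
structure Along (M : Bimod D D') (M' : Bimod C C') (j : M.H →+ M'.H) : Prop where
  mem : ∀ {n h}, h ∈ M.gr n → j h ∈ M'.gr n
  comm : ∀ h, M'.d (j h) = j (M.d h)
  l : ∀ (b : D'.B) h, j (b • h) = φ.f b • j h
  r : ∀ (b : D.B) h, j (op b • h) = op (ψ.f b) • j h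

variable {φ ψ} {M : Bimod D D'} {M' : Bimod C C'} {j : M.H →+ M'.H}

omit [C.KL K] [C'.KL K] [D.KL K] [D'.KL K] in
lemma Along.mem_cor (h : Along φ ψ M M' j) {a : D.O} {b : D'.O} {n : ℤ} {m : M.H}
    (hm : m ∈ M.cor a b n) : j m ∈ M'.cor (ψ.ob a) (φ.ob b) n :=
  M'.mem_cor (h.mem hm.1) (by rw [← φ.map_e, ← h.l, cor_l hm]) (by rw [← ψ.map_e, ← h.r, cor_r hm])

lemma Along.bhGr (h : Along φ ψ M M' j) {y : Tw (env K D D')} {n : ℤ} {m : y.I → M.H}
    (hm : m ∈ bhGr y M n) : (fun i => j (m i)) ∈ bhGr ((envF φ ψ).tw y) M' n :=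
  fun i => h.mem_cor (hm i)

variable [Module K M.H] [IsScalarTower K D'.B M.H] [IsScalarTower K D.Bᵐᵒᵖ M.H]
  [Module K M'.H] [IsScalarTower K C'.B M'.H] [IsScalarTower K C.Bᵐᵒᵖ M'.H]

lemma Along.act (h : Along φ ψ M M' j) (x : (env K D D').B) (m : M.H) :
    j (M.act K x m) = M'.act K ((envF φ ψ).f x) (j m) := by
  induction x using env_ind with
  | zero => simp
  | add a b ha hb => simp only [map_add, LinearMap.add_apply, ha, hb]
  | em a b => rw [envF_em, act_em, act_em, h.l, h.r]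

lemma Along.bhD (h : Along φ ψ M M' j) (y : Tw (env K D D')) (m : y.I → M.H) :
    bhD ((envF φ ψ).tw y) M' (fun i => j (m i)) = fun i => j (bhD y M m i) := by
  ext i
  simp only [bhD_apply, map_add, map_sum, h.act, h.comm, Matrix.map_apply]

variable (φ ψ) in
/-- The comparison map of semifree bimodules. -/
def iota (y : Tw (env K D D')) : (Fr y).H →+ (Fr ((envF φ ψ).tw y)).H :=
  AddMonoidHom.mk' (fun w => Fr.mk _ fun g => (envF φ ψ).f (Fr.val y w g)) fun a b =>
    Fr.ext fun g => by simp only [map_add, Pi.add_apply, Fr.val_mk, add_mul]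

variable {y : Tw (env K D D')}

lemma val_iota (w : (Fr y).H) (g : ((envF φ ψ).tw y).I) :
    Fr.val ((envF φ ψ).tw y) (iota φ ψ y w) g = (envF φ ψ).f (Fr.val y w g) := by
  change (envF φ ψ).f _ * (env K C C').e ((envF φ ψ).ob (y.ob g)) = _
  rw [← (envF φ ψ).map_e, ← map_mul, Fr.val_e]

lemma one_mul_envF (x : (env K D D').B) :
    em K C C' (φ.f 1) (ψ.f 1) * (envF φ ψ).f x = (envF φ ψ).f x := by
  rw [← envF_em, ← map_mul, em_one, one_mul]

lemma iota_along : Along φ ψ (Fr y) (Fr ((envF φ ψ).tw y)) (iota φ ψ y) where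
  mem {n w} h := Fr.mem_gr.2 fun g => by
    rw [val_iota]; exact (envF φ ψ).mem (h g)
  comm w := Fr.ext fun g => by
    rw [Fr.val_d, val_iota, val_iota, Fr.val_d, map_add, map_sum, (envF φ ψ).comm]
    exact congrArg _ (Finset.sum_congr rfl fun i _ => by rw [val_iota, map_mul]; rfl)
  l b w := Fr.ext fun g => by
    rw [Fr.val_l, val_iota, val_iota, Fr.val_l, map_mul, ← one_mul_envF (Fr.val y w g),
      ← mul_assoc, ← mul_assoc, tm_eq_em, tm_eq_em, envF_em, em_mul, em_mul, unop_one, ← map_mul,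
      ← map_mul, unop_one, mul_one, mul_one, mul_one]
  r b w := Fr.ext fun g => by
    rw [Fr.val_r, val_iota, val_iota, Fr.val_r, map_mul, ← one_mul_envF (Fr.val y w g),
      ← mul_assoc, ← mul_assoc, tm_eq_em, tm_eq_em, envF_em, em_mul, em_mul, unop_op, ← map_mul,
      ← map_mul, unop_op, ← map_mul, one_mul, one_mul, one_mul]

lemma iota_gen (g : y.I) : iota φ ψ y (Fr.gen y g) = Fr.gen ((envF φ ψ).tw y) g :=
    Fr.ext fun i => by
  rw [val_iota, Fr.val_gen, Fr.val_gen]
  split_ifs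
  · exact (envF φ ψ).map_e _
  · exact map_zero _

lemma Along.lift (h : Along φ ψ M M' j) (m : y.I → M.H) (w : (Fr y).H) :
    lift ((envF φ ψ).tw y) M' (fun i => j (m i)) (iota φ ψ y w) = j (lift y M m w) := by
  rw [lift_apply, lift_apply, map_sum]
  exact Finset.sum_congr rfl fun i _ => by rw [val_iota, h.act]

/-- A homotopy on the extended bimodule from its values on `x • ι w`. -/
lemma hat_contr (T : (Fr ((envF φ ψ).tw y)).H →+ (Fr ((envF φ ψ).tw y)).H)
    (Φ : (env K C C').B →+ (Fr y).H →+ (Fr ((envF φ ψ).tw y)).H)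
    (ha : ∀ x z w, Φ (x * (envF φ ψ).f z) w = Φ x ((Fr y).act K z w))
    (hb : ∀ x w, (Fr _).d (Φ x w) + Φ ((env K C C').d x) w + Φ x ((Fr y).d w) =
      T ((Fr _).act K x (iota φ ψ y w)))
    (hc : ∀ i k x w, x ∈ (env K C C').gr i → w ∈ (Fr y).gr k → Φ x w ∈ (Fr _).gr (i + k - 1))
    (S : AddSubgroup (Fr ((envF φ ψ).tw y)).H) (hS : ∀ x w, Φ x w ∈ S) :
    ∀ n, ∀ v ∈ (Fr ((envF φ ψ).tw y)).gr n, (Fr _).d v = 0 →
      ∃ t ∈ (Fr ((envF φ ψ).tw y)).gr (n - 1), t ∈ S ∧ (Fr _).d t = T v := by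
  let H : (Fr ((envF φ ψ).tw y)).H →+ (Fr ((envF φ ψ).tw y)).H :=
    AddMonoidHom.mk' (fun v => ∑ g, Φ (Fr.val _ v g) (Fr.gen y g)) fun a b => by
      simp [Finset.sum_add_distrib]
  have hH : ∀ v, H v = ∑ g, Φ (Fr.val _ v g) (Fr.gen y g) := fun _ => rfl
  have h1 : ∀ x w, H ((Fr _).act K x (iota φ ψ y w)) = Φ x w := fun x w => by
    rw [hH]
    conv_rhs => rw [← Fr.sum_gen w, map_sum]
    exact Finset.sum_congr rfl fun i _ => by rw [Fr.val_act, val_iota, ha]
  have h2 : ∀ v, (Fr _).d (H v) + H ((Fr _).d v) = T v := fun v => by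
    rw [← Fr.sum_gen v]
    simp only [map_sum, ← Finset.sum_add_distrib, ← iota_gen, d_act, map_add, h1,
      iota_along.comm, ← hb, add_assoc]
  intro n v hv h0
  refine ⟨H v, sum_mem fun g _ => (Fr _).mem_cast (hc _ _ _ _ (hv g) (Fr.gen_mem (y := y) g).1)
    (by dsimp only; ring), sum_mem fun g _ => hS _ _, ?_⟩
  rw [← h2, h0, map_zero, add_zero]

end FMD.S3
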