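import Pool.Agent.MP_0e6a9f_ag.H24.S3a

/-! One-sided contractions of a resolution of the diagonal. -/

open MulOpposite

noncomputable section
namespace FMD.S3
open _root_.FMD.DGR _root_.FMD.Bimod

variable {K : Type} [Field K]

section
variable {C C' : DGR} [Algebra K C.B] [Algebra K C'.B] [C.KL K] [C'.KL K]
  {y : Tw (env K C C')} {M : Bimod C C'} [Module K M.H] [IsScalarTower K C'.B M.H]
  [IsScalarTower K C.Bᵐᵒᵖ M.H]

/-- A closed map from a semifree bimodule to an acyclic one is null-homotopic. -/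
lemma null_htpy (hM : M.cx.Acyc) {f : (Fr y).H →+ M.H} (hf : IsHom (Fr y) M f) :
    ∃ L : (Fr y).H →+ M.H, IsLin (Fr y) M L ∧ (∀ n w, w ∈ (Fr y).gr n → L w ∈ M.gr (n - 1)) ∧
      ∀ w, M.d (L w) = L ((Fr y).d w) + f w := by
  obtain ⟨k, hk, e⟩ := bh_acyc y hM 0 _ ((hf.bh y).mem gen_bhGr) ((hf.bh y).cyc gen_bhGr bhD_gen)
  refine ⟨lift y M k, lift_isLin k, fun n w hw => M.mem_cast (lift_mem hk hw) (by ring),
    fun w => ?_⟩
  rw [d_lift, hf.isLin.eq_lift w]
  exact congrArg (fun m => _ + lift y M m w) e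

lemma lift_ext {x : Tw (env K C C')} {f : Matrix y.I x.I (env K C C').B}
    {hf : f ∈ (env K C C').self.twGr x y 1} {hd : (env K C C').self.twD x y f = 0}
    (m : x.I ⊕ y.I → M.H) (v : (Fr (x.ext y f hf hd)).H) :
    lift (x.ext y f hf hd) M m v = lift x M (fun i => m (Sum.inl i)) (Fr.fst hf hd v) +
      lift y M (fun i => m (Sum.inr i)) (Fr.snd hf hd v) := by
  rw [lift_apply, Fintype.sum_sum_type]; rfl

lemma fst_isHom (x y : Tw (env K C C')) :
    IsHom (Fr (x.sum y)) (Fr x) (Fr.fst (zero_mem _) (map_zero _)) :=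
  ⟨fun h => (Fr.ext_mem.1 h).1, fun v => by
    rw [Fr.fst_d, show Fr.rows (0 : Matrix y.I x.I (env K C C').B) = 0 from
      funext fun i => Fr.ext fun j => zero_mul _, lift_zero, add_zero],
    Fr.fst_isLin.l, Fr.fst_isLin.r⟩

lemma inr_isHom (x y : Tw (env K C C')) :
    IsHom (Fr y) (Fr (x.sum y)) (Fr.inr (zero_mem _) (map_zero _)) :=
  ⟨fun h => Fr.ext_mem.2 ⟨zero_mem _, h⟩, fun v => Fr.ext_ext
    (by rw [← (fst_isHom x y).comm]; simp) (by rw [Fr.snd_d]; simp),
    Fr.inr_isLin.l, Fr.inr_isLin.r⟩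

end

variable {A : DGR}

lemma deg0_honest (h : Deg0 A) : A.self.Honest :=
  honest_of_proj (fun n => if n = 0 then AddMonoidHom.id _ else 0)
    (fun n v => by
      by_cases e : n = 0
      · simpa [e] using h.mem v
      · simp [e])
    (fun m n v hv => by
      by_cases e : n = 0
      · subst e; by_cases e' : m = 0 <;> simp [e']
      · simp [h.zero hv e])
    fun v => ⟨{0}, by simp⟩

variable [Algebra K A.B] [A.KL K] (hA : Deg0 A) (R : Res K A)

include hA in
lemma exists_u : ∃ u ∈ (Fr R.q).gr 0, (Fr R.q).d u = 0 ∧ R.aug u = 1 := by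
  obtain ⟨u, hu, h0, w, -, e⟩ := R.qis.surj 0 1 A.one_mem A.d_one
  exact ⟨u, hu, h0, A.self.cx.eq_of_add (e.symm.trans (hA.d w))⟩

variable {R} {u : (Fr R.q).H} (hu : u ∈ (Fr R.q).gr 0) (hd : (Fr R.q).d u = 0) (h1 : R.aug u = 1)

include hu h1 in
lemma ker_aug_acyc : (ker R.aug_isHom).cx.Acyc :=
  ker_acyc (fun n w hw => ⟨w • u, (Fr R.q).mem_cast ((Fr R.q).l_mem hw hu) (add_zero n), by
    rw [R.aug_isHom.l, h1]; exact mul_one w⟩) R.qis

include hA hu hd h1 in
/-- The contraction as left modules. -/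
lemma contrL : ∃ H : (Fr R.q).H →+ (Fr R.q).H, (∀ (a : A.B) w, H (a • w) = a • H w) ∧
    (∀ n w, w ∈ (Fr R.q).gr n → H w ∈ (Fr R.q).gr (n - 1)) ∧ (∀ w, R.aug (H w) = 0) ∧
    ∀ w, (Fr R.q).d (H w) = H ((Fr R.q).d w) + (w + R.aug w • u) := by
  let ρ : (Fr R.q).H →+ (ker R.aug_isHom).H := AddMonoidHom.mk'
    (fun w => kmk _ (w + R.aug w • u) (by
      rw [map_add, R.aug_isHom.l, h1, smul_eq_mul, mul_one, A.two])) fun a b => kv_inj (by
        simp only [kv_kmk, map_add, add_smul]; abel)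
  have hρ : ∀ w, kv _ (ρ w) = w + R.aug w • u := fun _ => rfl
  have ρl : ∀ (a : A.B) w, ρ (a • w) = a • ρ w := fun a w => kv_inj (by
    rw [kv_l, hρ, hρ, R.aug_isHom.l, smul_add, smul_smul, smul_eq_mul])
  have ρd : ∀ w, (ker R.aug_isHom).d (ρ w) = ρ ((Fr R.q).d w) := fun w => kv_inj (by
    rw [kv_d, hρ, hρ, map_add, (Fr R.q).d_l, hd, smul_zero, add_zero, ← R.aug_isHom.comm])
  let U : (Fr R.q).H →+ (HomL K A.self (ker R.aug_isHom)).H := AddMonoidHom.mk'
    (fun w => (HomL.toLin K _ _).symm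
      { toFun := fun a : A.B => ρ (op a • w)
        map_add' := fun a b => by rw [op_add, add_smul, map_add]
        map_smul' := fun c a => by
          rw [op_smul, smul_assoc, ← algebraMap_smul A.B, ρl, algebraMap_smul]; rfl })
    fun a b => (HomL.toLin K _ _).injective (LinearMap.ext fun c =>
      (congrArg ρ (smul_add _ _ _)).trans (map_add ρ _ _))
  have hU : ∀ w (a : A.B), HomL.toLin K _ _ (U w) a = ρ (op a • w) := fun _ _ => rfl
  have hUh : IsHom (Fr R.q) _ U := ⟨fun {n w} hw m a ha => ?_,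
    fun w => (HomL.toLin K _ _).injective (LinearMap.ext fun a => ?_),
    fun b w => (HomL.toLin K _ _).injective (LinearMap.ext fun a => ?_),
    fun b w => (HomL.toLin K _ _).injective (LinearMap.ext fun a => ?_)⟩
  · obtain ⟨L, hL, hm, e⟩ := null_htpy (M := HomL K A.self (ker R.aug_isHom))
      (homCx_acyc_right (K := K) (deg0_honest hA) (ker_aug_acyc hu h1)) hUh
    refine ⟨AddMonoidHom.mk' (fun w => kv _ (HomL.toLin K _ _ (L w) 1)) fun a b => by simp,
      fun a w => ?_, fun n w hw => (Fr R.q).mem_cast (hm n w hw 0 1 A.one_mem) (zero_add _),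
      fun w => f_kv _, fun w => ?_⟩
    · change kv _ (HomL.toLin K _ _ (L (a • w)) 1) = _
      rw [hL.l]; rfl
    · have := congrArg (fun F => kv _ (HomL.toLin K _ _ F 1)) (e w)
      simp only [map_add, LinearMap.add_apply, hU, op_one, one_smul, hρ] at this
      rwa [HomL.d_apply, show A.self.d 1 = 0 from A.d_one, map_zero, add_zero] at this
  · have h2 := (Fr R.q).r_mem ha hw
    exact (Fr R.q).mem_cast (add_mem h2 ((Fr R.q).mem_cast
      ((Fr R.q).l_mem (R.aug_isHom.mem h2) hu) (add_zero _))) (add_comm _ _)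
  · rw [HomL.d_apply, hU, hU, hU, ρd, (Fr R.q).d_r, map_add]
    exact (ker R.aug_isHom).cx.add_add_cancel' _ _
  · rw [HomL.l_apply, hU, hU, ← ρl, smul_comm b]
  · rw [HomL.r_apply, hU, hU, smul_smul]; rfl

include hA hu hd h1 in
/-- The contraction as right modules. -/
lemma contrR : ∃ H : (Fr R.q).H →+ (Fr R.q).H, (∀ (a : A.B) w, H (op a • w) = op a • H w) ∧
    (∀ n w, w ∈ (Fr R.q).gr n → H w ∈ (Fr R.q).gr (n - 1)) ∧ (∀ w, R.aug (H w) = 0) ∧
    ∀ w, (Fr R.q).d (H w) = H ((Fr R.q).d w) + (w + op (R.aug w) • u) := by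
  let ρ : (Fr R.q).H →+ (ker R.aug_isHom).H := AddMonoidHom.mk'
    (fun w => kmk _ (w + op (R.aug w) • u) (by
      rw [map_add, R.aug_isHom.r, h1, op_smul_eq_mul, one_mul, A.two])) fun a b => kv_inj (by
        simp only [kv_kmk, map_add, op_add, add_smul]; abel)
  have hρ : ∀ w, kv _ (ρ w) = w + op (R.aug w) • u := fun _ => rfl
  have ρr : ∀ (a : A.Bᵐᵒᵖ) w, ρ (a • w) = a • ρ w := fun a w => kv_inj (by
    rw [kv_r, hρ, hρ, ← op_unop a, R.aug_isHom.r, smul_add, smul_smul]; rfl)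
  have ρd : ∀ w, (ker R.aug_isHom).d (ρ w) = ρ ((Fr R.q).d w) := fun w => kv_inj (by
    rw [kv_d, hρ, hρ, map_add, (Fr R.q).d_r, hd, smul_zero, zero_add, ← R.aug_isHom.comm])
  let U : (Fr R.q).H →+ (HomR K A.self (ker R.aug_isHom)).H := AddMonoidHom.mk'
    (fun w => (HomR.toLin K _ _).symm
      { toFun := fun a : A.B => ρ (a • w)
        map_add' := fun a b => by rw [add_smul, map_add]
        map_smul' := fun c a => by
          rw [smul_assoc, ← algebraMap_smul A.Bᵐᵒᵖ, ρr, algebraMap_smul]; rfl })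
    fun a b => (HomR.toLin K _ _).injective (LinearMap.ext fun c =>
      (congrArg ρ (smul_add _ _ _)).trans (map_add ρ _ _))
  have hU : ∀ w (a : A.B), HomR.toLin K _ _ (U w) a = ρ (a • w) := fun _ _ => rfl
  have hUh : IsHom (Fr R.q) _ U := ⟨fun {n w} hw m a ha => ?_,
    fun w => (HomR.toLin K _ _).injective (LinearMap.ext fun a => ?_),
    fun b w => (HomR.toLin K _ _).injective (LinearMap.ext fun a => ?_),
    fun b w => (HomR.toLin K _ _).injective (LinearMap.ext fun a => ?_)⟩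
  · obtain ⟨L, hL, hm, e⟩ := null_htpy (M := HomR K A.self (ker R.aug_isHom))
      (homCx_acyc_right (K := K) (deg0_honest hA) (ker_aug_acyc hu h1)) hUh
    refine ⟨AddMonoidHom.mk' (fun w => kv _ (HomR.toLin K _ _ (L w) 1)) fun a b => by simp,
      fun a w => ?_, fun n w hw => (Fr R.q).mem_cast (hm n w hw 0 1 A.one_mem) (zero_add _),
      fun w => f_kv _, fun w => ?_⟩
    · change kv _ (HomR.toLin K _ _ (L (op a • w)) 1) = _
      rw [hL.r]; rfl
    · have := congrArg (fun F => kv _ (HomR.toLin K _ _ F 1)) (e w)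
      simp only [map_add, LinearMap.add_apply, hU, one_smul, hρ] at this
      rwa [HomR.d_apply, show A.self.d 1 = 0 from A.d_one, map_zero, add_zero] at this
  · have h2 := (Fr R.q).l_mem ha hw
    exact add_mem h2 ((Fr R.q).mem_cast ((Fr R.q).r_mem (R.aug_isHom.mem h2) hu) (zero_add _))
  · rw [HomR.d_apply, hU, hU, hU, ρd, (Fr R.q).d_l, map_add, add_right_comm]
    exact (congrArg (· + _) ((ker R.aug_isHom).two _)).trans (zero_add _)
  · rw [HomR.l_apply, hU, hU, smul_smul]; rfl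
  · rw [HomR.r_apply, hU, hU, ← ρr, smul_comm]

end FMD.S3
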