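import Pool.Agent.MP_0e6a9f_ag.H24.S3b

/-! The two sides of a gluing: contractions of the extended resolutions. -/

open MulOpposite

noncomputable section
namespace FMD.S3
open _root_.FMD.DGR _root_.FMD.Bimod _root_.FMD.glue

variable {K : Type} [Field K]

section
variable {C C' D D' : DGR} [Algebra K C.B] [Algebra K C'.B] [Algebra K D.B] [Algebra K D'.B]
  {φ : LFun K D' C'} {ψ : LFun K D C} {M : Bimod D D'} {M' : Bimod C C'} {j : M.H →+ M'.H}

lemma Along.one_l (h : Along φ ψ M M' j) (m : M.H) : φ.f 1 • j m = j m := by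
  rw [← h.l, one_smul]

lemma Along.one_r (h : Along φ ψ M M' j) (m : M.H) : op (ψ.f 1) • j m = j m := by
  rw [← h.r, op_one, one_smul]

lemma Along.smul [Module K M.H] [IsScalarTower K D'.B M.H] [Module K M'.H]
    [IsScalarTower K C'.B M'.H] (h : Along φ ψ M M' j) (c : K) (m : M.H) :
    j (c • m) = c • j m := by
  rw [← one_smul D'.B m, ← smul_assoc, h.l, φ.smul, smul_assoc, ← h.l]

end

variable {A : DGR} [Algebra K A.B] (N : Bimod A A) [Module K N.H]
  [IsScalarTower K A.B N.H] [IsScalarTower K A.Bᵐᵒᵖ N.H]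

variable (K) in
/-- The first side as a linear functor. -/
def I₁ : LFun K A (glue N) :=
  ⟨i₁ N, fun _ _ => glue.ext rfl (smul_zero _).symm (smul_zero _).symm⟩

variable (K) in
/-- The second side as a linear functor. -/
def I₂ : LFun K A (glue N) :=
  ⟨i₂ N, fun _ _ => glue.ext (smul_zero _).symm rfl (smul_zero _).symm⟩

variable {N}

lemma I₁_apply (a : A.B) : (I₁ K N).f a = mk N a 0 0 := rfl
lemma I₂_apply (a : A.B) : (I₂ K N).f a = mk N 0 a 0 := rfl

lemma one_mul_I₁ (c : (glue N).B) : (I₁ K N).f 1 * c = (I₁ K N).f ((p₁ N).f c) :=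
  glue.ext (by simp [I₁_apply]) (by simp [I₁_apply]) (by simp [I₁_apply])

lemma mul_one_I₂ (c : (glue N).B) : c * (I₂ K N).f 1 = (I₂ K N).f ((p₂ N).f c) :=
  glue.ext (by simp [I₂_apply]) (by simp [I₂_apply]) (by simp [I₂_apply])

lemma along₁ : Along (I₁ K N) (I₁ K N) A.self (glue N).self ((I₁ K N).f : A.B →+ (glue N).B) :=
  ⟨(I₁ K N).mem, (I₁ K N).comm, map_mul (I₁ K N).f, fun b h => map_mul (I₁ K N).f h b⟩

lemma along₂ : Along (I₂ K N) (I₂ K N) A.self (glue N).self ((I₂ K N).f : A.B →+ (glue N).B) :=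
  ⟨(I₂ K N).mem, (I₂ K N).comm, map_mul (I₂ K N).f, fun b h => map_mul (I₂ K N).f h b⟩

lemma alongN : Along (I₂ K N) (I₁ K N) N (glue N).self (iN N) :=
  ⟨iN_mem, d_iN, fun b h => (mul_iN ((I₂ K N).f b) h).symm,
    fun b h => (iN_mul h ((I₁ K N).f b)).symm⟩

lemma alongC : Along (I₂ K N) (I₁ K N) N (corner N N) (AddMonoidHom.id N.H) :=
  ⟨fun h => h, fun _ => rfl, fun _ _ => rfl, fun _ _ => rfl⟩

section
variable {D : DGR} [Algebra K D.B]

lemma Along.r₁ {φ : LFun K D (glue N)} {M : Bimod A D} {M' : Bimod (glue N) (glue N)}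
    {j : M.H →+ M'.H} (h : Along φ (I₁ K N) M M' j) (c : (glue N).B) (m : M.H) :
    op c • j m = j (op ((p₁ N).f c) • m) := by
  rw [h.r, ← one_mul_I₁, op_mul, mul_smul, h.one_r]

lemma Along.l₂ {ψ : LFun K D (glue N)} {M : Bimod D A} {M' : Bimod (glue N) (glue N)}
    {j : M.H →+ M'.H} (h : Along (I₂ K N) ψ M M' j) (c : (glue N).B) (m : M.H) :
    c • j m = j ((p₂ N).f c • m) := by
  rw [h.l, ← mul_one_I₂, mul_smul, h.one_l]

end

variable [A.KL K] (N) (R : Res K A)

/-- The generators on the first side. -/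
abbrev X₁ : Tw (env K (glue N) (glue N)) := (envF (I₁ K N) (I₁ K N)).tw R.q

/-- The generators on the second side. -/
abbrev X₂ : Tw (env K (glue N) (glue N)) := (envF (I₂ K N) (I₂ K N)).tw R.q

/-- The augmentation on the first side. -/
def aug₁ : (Fr (X₁ N R)).H →+ (glue N).B :=
  lift (X₁ N R) (glue N).self fun i => (I₁ K N).f (R.a i)

/-- The augmentation on the second side. -/
def aug₂ : (Fr (X₂ N R)).H →+ (glue N).B :=
  lift (X₂ N R) (glue N).self fun i => (I₂ K N).f (R.a i)

/-- The comparison map on the first side. -/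
abbrev ι₁ : (Fr R.q).H →+ (Fr (X₁ N R)).H := iota (I₁ K N) (I₁ K N) R.q

/-- The comparison map on the second side. -/
abbrev ι₂ : (Fr R.q).H →+ (Fr (X₂ N R)).H := iota (I₂ K N) (I₂ K N) R.q

variable {N R}

lemma a₁_d : bhD (X₁ N R) (glue N).self (fun i => (I₁ K N).f (R.a i)) = 0 :=
  (along₁.bhD R.q R.a).trans (by rw [R.a_d]; exact funext fun _ => map_zero _)

lemma a₂_d : bhD (X₂ N R) (glue N).self (fun i => (I₂ K N).f (R.a i)) = 0 :=
  (along₂.bhD R.q R.a).trans (by rw [R.a_d]; exact funext fun _ => map_zero _)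

lemma aug₁_isHom : IsHom (Fr (X₁ N R)) (glue N).self (aug₁ N R) :=
  lift_isHom (along₁.bhGr R.a_mem) a₁_d

lemma aug₂_isHom : IsHom (Fr (X₂ N R)) (glue N).self (aug₂ N R) :=
  lift_isHom (along₂.bhGr R.a_mem) a₂_d

lemma aug₁_ι (w : (Fr R.q).H) : aug₁ N R (ι₁ N R w) = (I₁ K N).f (R.aug w) := along₁.lift R.a w

lemma aug₂_ι (w : (Fr R.q).H) : aug₂ N R (ι₂ N R w) = (I₂ K N).f (R.aug w) := along₂.lift R.a w

lemma p₂_aug₁ (v : (Fr (X₁ N R)).H) : (p₂ N).f (aug₁ N R v) = 0 := by
  rw [aug₁, lift_apply, map_sum]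
  refine Finset.sum_eq_zero fun i _ => ?_
  induction Fr.val _ v i using env_ind with
  | zero => simp
  | add a b ha hb => rw [map_add, LinearMap.add_apply, map_add, ha, hb, add_zero]
  | em a b => rw [act_self_em]; simp [I₁_apply]

lemma p₁_aug₂ (v : (Fr (X₂ N R)).H) : (p₁ N).f (aug₂ N R v) = 0 := by
  rw [aug₂, lift_apply, map_sum]
  refine Finset.sum_eq_zero fun i _ => ?_
  induction Fr.val _ v i using env_ind with
  | zero => simp
  | add a b ha hb => rw [map_add, LinearMap.add_apply, map_add, ha, hb, add_zero]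
  | em a b => rw [act_self_em]; simp [I₂_apply]

variable (hA : Deg0 A) {u : (Fr R.q).H} (hu : u ∈ (Fr R.q).gr 0) (hd : (Fr R.q).d u = 0)
  (h1 : R.aug u = 1)

include hA hu hd h1 in
lemma side₁ : ∀ n, ∀ v ∈ (Fr (X₁ N R)).gr n, (Fr _).d v = 0 → ∃ t ∈ (Fr (X₁ N R)).gr (n - 1),
    aug₁ N R t = 0 ∧ (Fr _).d t = v + aug₁ N R v • ι₁ N R u := by
  obtain ⟨H, Hl, Hm, Ha, Hd⟩ := contrL hA hu hd h1
  have Hk : ∀ (c : K) w, H (c • w) = c • H w := fun c w => by
    rw [← algebraMap_smul A.B, Hl, algebraMap_smul]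
  have hι := iota_along (φ := I₁ K N) (ψ := I₁ K N) (y := R.q)
  let Φ : (env K (glue N) (glue N)).B →ₗ[K] (Fr R.q).H →+ (Fr (X₁ N R)).H :=
    elift (LinearMap.mk₂ K (fun c c' => AddMonoidHom.mk'
      (fun w => c • ι₁ N R (H (op ((p₁ N).f c') • w))) fun a b => by simp only [smul_add, map_add])
      (fun a a' b => AddMonoidHom.ext fun w => add_smul _ _ _)
      (fun c a b => AddMonoidHom.ext fun w => smul_assoc _ _ _)
      (fun a b b' => AddMonoidHom.ext fun w => by
        simp only [AddMonoidHom.mk'_apply, AddMonoidHom.add_apply, map_add, op_add, add_smul,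
          smul_add])
      fun c a b => AddMonoidHom.ext fun w => by
        simp only [AddMonoidHom.mk'_apply, AddMonoidHom.smul_apply, p₁_smul, op_smul, smul_assoc,
          Hk, hι.smul, smul_comm a c])
  have hΦ : ∀ c c' w, Φ (em K _ _ c c') w = c • ι₁ N R (H (op ((p₁ N).f c') • w)) :=
    fun _ _ _ => rfl
  refine hat_contr (AddMonoidHom.mk' (fun v => v + aug₁ N R v • ι₁ N R u) fun a b => by
    simp only [map_add, add_smul]; abel) Φ.toAddMonoidHom (fun x z w => ?_) (fun x w => ?_)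
    (fun i k x w hx hw => env_gr_le (Φ.toAddMonoidHom.flip w) _ (fun i' j' a b ha hb e => ?_) hx)
    (aug₁ N R).ker fun x w => ?_
  · change Φ _ w = Φ x _
    induction x using env_ind with
    | zero => simp
    | add a b ha hb => simp only [add_mul, map_add, AddMonoidHom.add_apply, ha, hb]
    | em c c' =>
      induction z using env_ind with
      | zero => simp
      | add a b ha hb => simp only [mul_add, map_add, AddMonoidHom.add_apply,
          LinearMap.add_apply, ha, hb]
      | em a a' =>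
        rw [envF_em, em_mul, hΦ, hΦ, act_em, ← smul_comm a, Hl, hι.l, mul_smul, map_mul, op_mul,
          mul_smul]
        rfl
  · change (Fr _).d (Φ x w) + Φ _ w + Φ x _ = _ + aug₁ N R _ • _
    induction x using env_ind with
    | zero => simp
    | add a b ha hb =>
      simp only [map_add, AddMonoidHom.add_apply, LinearMap.add_apply, add_smul]
      linear_combination (norm := abel) ha + hb
    | em c c' =>
      rw [d_em, map_add, AddMonoidHom.add_apply, hΦ, hΦ, hΦ, hΦ, act_em, hι.r₁, (Fr _).d_l,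
        hι.comm, Hd, (Fr R.q).d_r, aug₁_isHom.l, aug₁_ι, smul_eq_mul, mul_smul, ← hι.l, p₁_d]
      simp only [map_add, smul_add]
      linear_combination (norm := abel) (Fr _).two ((glue N).d c • ι₁ N R (H (op ((p₁ N).f c') • w)))
        + (Fr _).two (c • ι₁ N R (H (op ((p₁ N).f c') • (Fr R.q).d w)))
        + (Fr _).two (c • ι₁ N R (H (op (A.d ((p₁ N).f c')) • w)))
  · exact (Fr _).mem_cast ((Fr _).l_mem ha (hι.mem (Hm _ _ ((Fr R.q).r_mem ((p₁ N).mem hb) hw))))
      (by omega)
  · change aug₁ N R (Φ x w) = 0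
    induction x using env_ind with
    | zero => simp
    | add a b ha hb => rw [map_add, AddMonoidHom.add_apply, map_add, ha, hb, add_zero]
    | em c c' => rw [hΦ, aug₁_isHom.l, aug₁_ι, Ha, map_zero, smul_zero]

include hA hu hd h1 in
lemma side₂ : ∀ n, ∀ v ∈ (Fr (X₂ N R)).gr n, (Fr _).d v = 0 → ∃ t ∈ (Fr (X₂ N R)).gr (n - 1),
    aug₂ N R t = 0 ∧ (Fr _).d t = v + op (aug₂ N R v) • ι₂ N R u := by
  obtain ⟨H, Hr, Hm, Ha, Hd⟩ := contrR hA hu hd h1
  have Hk : ∀ (c : K) w, H (c • w) = c • H w := fun c w => by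
    rw [← algebraMap_smul A.Bᵐᵒᵖ, ← op_unop (algebraMap _ _ c), Hr, op_unop, algebraMap_smul]
  have hι := iota_along (φ := I₂ K N) (ψ := I₂ K N) (y := R.q)
  let Φ : (env K (glue N) (glue N)).B →ₗ[K] (Fr R.q).H →+ (Fr (X₂ N R)).H :=
    elift (LinearMap.mk₂ K (fun c c' => AddMonoidHom.mk'
      (fun w => op c' • ι₂ N R (H ((p₂ N).f c • w))) fun a b => by simp only [smul_add, map_add])
      (fun a a' b => AddMonoidHom.ext fun w => by
        simp only [AddMonoidHom.mk'_apply, AddMonoidHom.add_apply, map_add, add_smul, smul_add])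
      (fun c a b => AddMonoidHom.ext fun w => by
        simp only [AddMonoidHom.mk'_apply, AddMonoidHom.smul_apply, p₂_smul, smul_assoc,
          Hk, hι.smul, smul_comm (op b) c])
      (fun a b b' => AddMonoidHom.ext fun w => add_smul (op b) (op b') _)
      fun c a b => AddMonoidHom.ext fun w => smul_assoc c (op b) _)
  have hΦ : ∀ c c' w, Φ (em K _ _ c c') w = op c' • ι₂ N R (H ((p₂ N).f c • w)) :=
    fun _ _ _ => rfl
  refine hat_contr (AddMonoidHom.mk' (fun v => v + op (aug₂ N R v) • ι₂ N R u) fun a b => by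
    simp only [map_add, op_add, add_smul]; abel) Φ.toAddMonoidHom (fun x z w => ?_) (fun x w => ?_)
    (fun i k x w hx hw => env_gr_le (Φ.toAddMonoidHom.flip w) _ (fun i' j' a b ha hb e => ?_) hx)
    (aug₂ N R).ker fun x w => ?_
  · change Φ _ w = Φ x _
    induction x using env_ind with
    | zero => simp
    | add a b ha hb => simp only [add_mul, map_add, AddMonoidHom.add_apply, ha, hb]
    | em c c' =>
      induction z using env_ind with
      | zero => simp
      | add a b ha hb => simp only [mul_add, map_add, AddMonoidHom.add_apply,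
          LinearMap.add_apply, ha, hb]
      | em a a' =>
        rw [envF_em, em_mul, hΦ, hΦ, act_em, smul_smul, smul_comm _ (op a'), Hr, hι.r, op_mul,
          mul_smul, map_mul]
        rfl
  · change (Fr _).d (Φ x w) + Φ _ w + Φ x _ = _ + op (aug₂ N R _) • _
    induction x using env_ind with
    | zero => simp
    | add a b ha hb =>
      simp only [map_add, AddMonoidHom.add_apply, LinearMap.add_apply, op_add, add_smul]
      linear_combination (norm := abel) ha + hb
    | em c c' =>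
      rw [d_em, map_add, AddMonoidHom.add_apply, hΦ, hΦ, hΦ, hΦ, act_em, smul_comm c, hι.l₂,
        (Fr _).d_r, hι.comm, Hd, (Fr R.q).d_l, aug₂_isHom.r, aug₂_ι, op_smul_eq_mul, op_mul,
        mul_smul, ← hι.r, p₂_d]
      simp only [map_add, smul_add]
      linear_combination (norm := abel)
        (Fr _).two (op ((glue N).d c') • ι₂ N R (H ((p₂ N).f c • w)))
        + (Fr _).two (op c' • ι₂ N R (H ((p₂ N).f c • (Fr R.q).d w)))
        + (Fr _).two (op c' • ι₂ N R (H (A.d ((p₂ N).f c) • w)))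
  · exact (Fr _).mem_cast ((Fr _).r_mem hb (hι.mem (Hm _ _ ((Fr R.q).l_mem ((p₂ N).mem ha) hw))))
      (by omega)
  · change aug₂ N R (Φ x w) = 0
    induction x using env_ind with
    | zero => simp
    | add a b ha hb => rw [map_add, AddMonoidHom.add_apply, map_add, ha, hb, add_zero]
    | em c c' => rw [hΦ, aug₂_isHom.r, aug₂_ι, Ha, map_zero, smul_zero]

end FMD.S3
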