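import Pool.Agent.MP_0e6a9f_ag.H24.S3c

/-! The kernel of the augmentation on the two sides of a gluing. -/

open MulOpposite

noncomputable section
namespace FMD.S3
open _root_.FMD.DGR _root_.FMD.Bimod _root_.FMD.glue

variable {K : Type} [Field K] {A : DGR} [Algebra K A.B] [A.KL K]

section
variable (N : Bimod A A) [Module K N.H] [IsScalarTower K A.B N.H] [IsScalarTower K A.Bᵐᵒᵖ N.H]
  (R : Res K A)

/-- The generators on both sides. -/
abbrev XX : Tw (env K (glue N) (glue N)) := (X₁ N R).sum (X₂ N R)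

/-- The augmentation on the generators of both sides. -/
def aX : (XX N R).I → (glue N).B :=
  Sum.elim (fun i => (I₁ K N).f (R.a i)) fun i => (I₂ K N).f (R.a i)

/-- The augmentation on both sides. -/
def augX : (Fr (XX N R)).H →+ (glue N).B := lift (XX N R) (glue N).self (aX N R)

/-- The first component. -/
abbrev f₁ : (Fr (XX N R)).H →+ (Fr (X₁ N R)).H := Fr.fst (zero_mem _) (map_zero _)

/-- The second component. -/
abbrev f₂ : (Fr (XX N R)).H →+ (Fr (X₂ N R)).H := Fr.snd (zero_mem _) (map_zero _)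

/-- The element with given components. -/
def pair (x : (Fr (X₁ N R)).H) (y : (Fr (X₂ N R)).H) : (Fr (XX N R)).H :=
  Fr.inl (zero_mem _) (map_zero _) x + Fr.inr (zero_mem _) (map_zero _) y

variable {N R}

lemma f₁_pair (x y) : f₁ N R (pair N R x y) = x := by simp [pair]

lemma f₂_pair (x y) : f₂ N R (pair N R x y) = y := by simp [pair]

lemma pair_mem {n : ℤ} {x y} (hx : x ∈ (Fr (X₁ N R)).gr n) (hy : y ∈ (Fr (X₂ N R)).gr n) :
    pair N R x y ∈ (Fr (XX N R)).gr n :=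
  Fr.ext_mem.2 ⟨(f₁_pair x y).symm ▸ hx, (f₂_pair x y).symm ▸ hy⟩

lemma f₁_d (v) : f₁ N R ((Fr _).d v) = (Fr _).d (f₁ N R v) := ((fst_isHom _ _).comm v).symm

lemma f₂_d (v) : f₂ N R ((Fr _).d v) = (Fr _).d (f₂ N R v) := Fr.snd_d v

lemma aX_mem : aX N R ∈ bhGr (XX N R) (glue N).self 0 := by
  rintro (i | i)
  exacts [along₁.bhGr R.a_mem i, along₂.bhGr R.a_mem i]

lemma aX_d : bhD (XX N R) (glue N).self (aX N R) = 0 := by
  funext i
  rcases i with i | i
  · exact (Fr.bhD_ext_inl (hf := zero_mem _) (hd := map_zero _) _ _ i).trans (congrFun a₁_d i)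
  · refine (Fr.bhD_ext_inr (hf := zero_mem _) (hd := map_zero _) _ _ i).trans ?_
    simp only [Matrix.zero_apply, map_zero, LinearMap.zero_apply, Finset.sum_const_zero, add_zero]
    exact congrFun a₂_d i

lemma augX_isHom : IsHom (Fr (XX N R)) (glue N).self (augX N R) := lift_isHom aX_mem aX_d

lemma augX_apply (v) : augX N R v = aug₁ N R (f₁ N R v) + aug₂ N R (f₂ N R v) :=
  lift_ext (M := (glue N).self) _ v

variable (N R) in
/-- The projection of the kernel of the augmentation to the gluing bimodule. -/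
def piZ : (ker (augX_isHom (N := N) (R := R))).H →+ N.H :=
  (pN N).comp ((aug₁ N R).comp ((f₁ N R).comp (kv _)))

lemma aug₁_eq (z : (ker (augX_isHom (N := N) (R := R))).H) :
    aug₁ N R (f₁ N R (kv _ z)) = aug₂ N R (f₂ N R (kv _ z)) :=
  (glue N).self.cx.eq_of_add ((augX_apply _).symm.trans (f_kv z))

lemma iN_piZ (z) : iN N (piZ N R z) = aug₁ N R (f₁ N R (kv _ z)) :=
  glue.ext (by rw [aug₁_eq, p₁_aug₂]; rfl) (p₂_aug₁ _).symm rfl

lemma iN_inj {a b : N.H} (h : iN N a = iN N b) : a = b := congrArg (pN N) h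

lemma piZ_isHom : IsHom (ker (augX_isHom (N := N) (R := R))) (corner N N) (piZ N R) := by
  have h := aug₁_isHom.comp ((fst_isHom (X₁ N R) (X₂ N R)).comp (kv_isHom (hf := augX_isHom)))
  refine ⟨fun hz => (h.mem hz).2.2, fun z => congrArg (pN N) (h.comm z), fun b z => iN_inj (N := N) ?_,
    fun b z => iN_inj (N := N) ?_⟩
  · refine (iN_piZ _).trans ((h.l b z).trans (Eq.trans ?_ ((iN_isHom N).l b _).symm))
    exact congrArg (b • ·) (iN_piZ z).symm
  · refine (iN_piZ _).trans ((h.r b z).trans (Eq.trans ?_ ((iN_isHom N).r b _).symm))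
    exact congrArg (op b • ·) (iN_piZ z).symm

variable (hA : Deg0 A) {u : (Fr R.q).H} (hu : u ∈ (Fr R.q).gr 0) (hd : (Fr R.q).d u = 0)
  (h1 : R.aug u = 1)

include h1 in
lemma augX_pair (w₁ w₂ : (glue N).B) : augX N R (pair N R (w₁ • ι₁ N R u) (op w₂ • ι₂ N R u)) =
    w₁ * (I₁ K N).f 1 + (I₂ K N).f 1 * w₂ := by
  rw [augX_apply, f₁_pair, f₂_pair, aug₁_isHom.l, aug₂_isHom.r, aug₁_ι, aug₂_ι, h1]; rfl

include hu in
lemma pair_u_mem {n : ℤ} {w₁ w₂ : (glue N).B} (h₁ : w₁ ∈ (glue N).gr n)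
    (h₂ : w₂ ∈ (glue N).gr n) :
    pair N R (w₁ • ι₁ N R u) (op w₂ • ι₂ N R u) ∈ (Fr (XX N R)).gr n :=
  pair_mem ((Fr _).mem_cast ((Fr _).l_mem h₁ (iota_along.mem hu)) (add_zero _))
    ((Fr _).mem_cast ((Fr _).r_mem h₂ (iota_along.mem hu)) (zero_add _))

include hu h1 in
lemma augX_surj : ∀ n, ∀ w ∈ (glue N).gr n, ∃ v ∈ (Fr (XX N R)).gr n, augX N R v = w :=
  fun _ w hw => ⟨_, pair_u_mem hu hw ((I₂ K N).mem ((p₂ N).mem hw)), (augX_pair h1 _ _).trans
    (glue.ext (by simp [I₁_apply, I₂_apply]) (by simp [I₁_apply, I₂_apply])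
      (by simp [I₁_apply, I₂_apply]))⟩

include hA hu hd h1 in
lemma piZ_qis :
    Cx.Qis (ker (augX_isHom (N := N) (R := R))).cx (corner N N).cx (piZ N R) := by
  let σ : N.H → (ker (augX_isHom (N := N) (R := R))).H := fun ν =>
    kmk _ (pair N R (iN N ν • ι₁ N R u) (op (iN N ν) • ι₂ N R u)) (by
      rw [augX_pair h1, iN_mul, mul_iN, I₁_apply, I₂_apply, p₁_mk, p₂_mk, op_one, one_smul,
        one_smul, (glue N).two])
  have s1 : ∀ ν, f₁ N R (kv _ (σ ν)) = iN N ν • ι₁ N R u := fun _ => f₁_pair _ _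
  have s2 : ∀ ν, f₂ N R (kv _ (σ ν)) = op (iN N ν) • ι₂ N R u := fun _ => f₂_pair _ _
  have sm : ∀ n, ∀ ν ∈ N.gr n, σ ν ∈ (ker augX_isHom).gr n := fun n ν h =>
    pair_u_mem hu (iN_mem h) (iN_mem h)
  have sd : ∀ ν, (ker augX_isHom).d (σ ν) = σ (N.d ν) := fun ν => kv_inj (Fr.ext_ext
    (by rw [kv_d, f₁_d, s1, s1, (Fr _).d_l, iota_along.comm, hd, map_zero, smul_zero, add_zero,
      d_iN])
    (by rw [kv_d, f₂_d, s2, s2, (Fr _).d_r, iota_along.comm, hd, map_zero, smul_zero, zero_add,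
      d_iN]))
  have sp : ∀ ν, piZ N R (σ ν) = ν := fun ν => iN_inj (by
    rw [iN_piZ, s1, aug₁_isHom.l, aug₁_ι, h1, smul_eq_mul, iN_mul, I₁_apply, p₁_mk, op_one,
      one_smul])
  refine ⟨piZ_isHom.isMap, fun n (w : N.H) hw h0 => ⟨σ w, sm n w hw, ?_, ?_⟩, ?_⟩
  · exact (sd w).trans (kv_inj (Fr.ext_ext
      (by rw [s1, show N.d w = 0 from h0]; simp) (by rw [s2, show N.d w = 0 from h0]; simp)))
  · exact ⟨0, zero_mem _, (map_zero N.d).trans ((N.two w).symm.trans (congrArg (· + w) (sp w).symm))⟩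
  · rintro n z hz h0 ⟨w : N.H, hw, e⟩
    have h0' : (Fr _).d (kv augX_isHom z) = 0 := congrArg (kv augX_isHom) h0
    have hz' : kv augX_isHom z ∈ (Fr (XX N R)).gr n := hz
    obtain ⟨t₁, m₁, a₁, e₁⟩ := side₁ hA hu hd h1 n _ (Fr.ext_mem.1 hz').1
      ((f₁_d _).symm.trans (by rw [h0', map_zero]))
    obtain ⟨t₂, m₂, a₂, e₂⟩ := side₂ hA hu hd h1 n _ (Fr.ext_mem.1 hz').2
      ((f₂_d _).symm.trans (by rw [h0', map_zero]))
    refine ⟨kmk augX_isHom (pair N R t₁ t₂)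
      (by rw [augX_apply, f₁_pair, f₂_pair, a₁, a₂, add_zero]) + σ w,
      add_mem (pair_mem m₁ m₂) (sm _ w hw), ?_⟩
    change (ker augX_isHom).d _ = z
    rw [map_add, sd, show N.d w = piZ N R z from e]
    refine kv_inj (Fr.ext_ext (hf := zero_mem _) (hd := map_zero _) ?_ ?_)
    · rw [map_add, map_add, s1, kv_d, f₁_d, kv_kmk, f₁_pair, e₁, iN_piZ]
      exact (Fr _).cx.add_add_cancel' _ _
    · rw [map_add, map_add, s2, kv_d, f₂_d, kv_kmk, f₂_pair, e₂, iN_piZ, aug₁_eq]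
      exact (Fr _).cx.add_add_cancel' _ _

variable (N) in
/-- The identity, into the corner bimodule. -/
def toC : N.H →+ (corner N N).H := AddMonoidHom.id N.H

variable (N) in
/-- The identity, out of the corner bimodule. -/
def ofC : (corner N N).H →+ N.H := AddMonoidHom.id N.H

omit [Algebra K A.B] [A.KL K] [Module K N.H] [IsScalarTower K A.B N.H]
  [IsScalarTower K A.Bᵐᵒᵖ N.H] in
lemma ofC_toC (w : N.H) : ofC N (toC N w) = w := rfl

omit [Algebra K A.B] [A.KL K] [Module K N.H] [IsScalarTower K A.B N.H]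
  [IsScalarTower K A.Bᵐᵒᵖ N.H] in
lemma toC_ofC (w : (corner N N).H) : toC N (ofC N w) = w := rfl

lemma along_toC : Along (I₂ K N) (I₁ K N) N (corner N N) (toC N) := alongC

lemma Along.corner {M' : Bimod (glue N) (glue N)} {j : N.H →+ M'.H}
    (h : Along (I₂ K N) (I₁ K N) N M' j) : IsHom (corner N N) M' (j.comp (ofC N)) :=
  ⟨h.mem, h.comm, fun b w => (h.l₂ b w).symm, fun b w => (h.r₁ b w).symm⟩

end

end FMD.S3
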